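import Pool.Agent.Helper11.N1.Defs

set_option autoImplicit false

/-!
# The averaging identity: statement

For every configuration the sum of `FF X W S` over all levels `W` is
`p N(X, S) - a n_z(X) - b n_s(S) + a b`.
-/

namespace Helper48.AV

open Helper11.N1

section

variable {p : ℕ} (q a b : ℕ) (z : ZMod p → ZMod (p * q))

/-- the number of right sides in the window `[X, X + b q)` -/
noncomputable def nz [NeZero p] (X : ZMod (p * q)) : ℤ :=
  open Classical in ∑ j : ZMod p, if off X (z j) < b * q then (1 : ℤ) else 0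

/-- the number of bottoms in the window `[S - a q, S)` -/
noncomputable def ns [NeZero p] (S : ZMod (p * q)) : ℤ :=
  open Classical in ∑ j : ZMod p, if off (sc q z j + 1) S < a * q then (1 : ℤ) else 0

end

/-- the averaging identity -/
def StAV : Prop := ∀ (p q a b : ℕ) [NeZero p] [NeZero q], a + b < p → 0 < a → 0 < b →
  ∀ (z : ZMod p → ZMod (p * q)) (X S : ZMod (p * q)),
    ∑ W : ZMod p, FF q a b z X W S =
      (p : ℤ) * NN q a b z X S - a * nz q b z X - b * ns q a z S + a * b

/-- comparison of two points: `FF ≤ 1` at the first and `FF ≥ -1` at the second -/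
def StCMP : Prop := ∀ (p q a b : ℕ) [NeZero p] [NeZero q], a + b < p → 0 < a → 0 < b →
  ∀ (z : ZMod p → ZMod (p * q)) (X₁ S₁ X₂ S₂ : ZMod (p * q)),
    (∀ W, |FF q a b z X₁ W S₁| ≤ 1) → (∀ W, |FF q a b z X₂ W S₂| ≤ 1) →
    2 ≤ NN q a b z X₁ S₁ → NN q a b z X₂ S₂ ≤ 0 →
    a * nz q b z X₂ + b * ns q a z S₂ ≤ a * nz q b z X₁ + b * ns q a z S₁

end Helper48.AV
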