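import Pool.Agent.Helper48.AV.St
import Pool.Agent.Helper11.N1.Api

set_option autoImplicit false
set_option linter.unusedSectionVars false
set_option linter.unusedVariables false

/-!
# The averaging identity: proof
-/

namespace Helper48.AV

open Helper11.N1 Finset

section

variable {p q a b : ℕ} [NeZero p] [NeZero q]

theorem sum_zmod (f : ℕ → ℤ) : ∑ v : ZMod p, f v.val = ∑ n ∈ range p, f n := by
  refine Finset.sum_nbij (fun v : ZMod p => v.val) (fun v _ => mem_range.2 (ZMod.val_lt v)) ?_ ?_
    (fun _ _ => rfl)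
  · intro v _ w _ h
    exact ZMod.val_injective p h
  · intro n hn
    exact ⟨(n : ZMod p), mem_coe.2 (mem_univ _), ZMod.val_natCast_of_lt (mem_range.1 hn)⟩

theorem sum_zmod_sub (U : ZMod p) (f : ℕ → ℤ) :
    ∑ j : ZMod p, f (U - j).val = ∑ n ∈ range p, f n := by
  rw [← sum_zmod]
  exact Fintype.sum_equiv (Equiv.subLeft U) _ _ (fun _ => rfl)

theorem sum_zmod_sub' (f : ZMod p → ℤ) (j : ZMod p) :
    ∑ W : ZMod p, f W = ∑ v : ZMod p, f (j - v) :=
  (Fintype.sum_equiv (Equiv.subLeft j) _ _ (fun _ => rfl)).symm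

/-- the count of levels -/
theorem sum_tri {q : ℕ} (U j : ZMod p) {u0 : ℕ} (hu : u0 < q) (o : ℕ) :
    (∑ W : ZMod p, if o + q * (j - W).val < q * (U - W).val + u0 then (1 : ℤ) else 0) =
      if o < q * (U - j).val + u0 then ((p : ℤ) - (U - j).val) else 0 := by
  rw [sum_zmod_sub' _ j]
  set d := (U - j).val with hd
  have hdp : d < p := ZMod.val_lt _
  have h1 : ∀ v : ZMod p, (if o + q * (j - (j - v)).val < q * (U - (j - v)).val + u0 then (1 : ℤ)
      else 0) = (fun n : ℕ => if n < p - d ∧ o < q * d + u0 then (1 : ℤ) else 0) v.val := by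
    intro v
    have e1 : j - (j - v) = v := by ring
    have e2 : U - (j - v) = (U - j) + v := by ring
    rw [e1, e2]
    have hv : v.val < p := ZMod.val_lt _
    have e3 : ((U - j) + v).val = if d + v.val < p then d + v.val else d + v.val - p := by
      rw [ZMod.val_add, ← hd]
      split_ifs with h
      · exact Nat.mod_eq_of_lt h
      · rw [Nat.mod_eq_sub_mod (by omega), Nat.mod_eq_of_lt (by omega)]
    rw [e3]
    by_cases h : d + v.val < p
    · rw [if_pos h]
      have h2 : (o + q * v.val < q * (d + v.val) + u0) ↔ (v.val < p - d ∧ o < q * d + u0) := by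
        rw [Nat.mul_add]
        constructor
        · intro h3
          exact ⟨by omega, by omega⟩
        · rintro ⟨_, h3⟩
          omega
      simp only [h2]
    · rw [if_neg h]
      have h2 : ¬ (o + q * v.val < q * (d + v.val - p) + u0) := by
        have h3 : q * (d + v.val - p) + q * 1 ≤ q * v.val := by
          rw [← Nat.mul_add]
          exact Nat.mul_le_mul_left _ (by omega)
        omega
      have h3 : ¬ (v.val < p - d ∧ o < q * d + u0) := by omega
      simp only [h2, h3, if_false]
  refine (Finset.sum_congr rfl (fun v _ => h1 v)).trans ((sum_zmod (fun n : ℕ => if n < p - d ∧ o < q * d + u0 then (1 : ℤ) else 0)).trans ?_)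
  by_cases h : o < q * d + u0
  · simp only [h, and_true, if_true]
    rw [← Finset.sum_filter, Finset.sum_const, nsmul_eq_mul, mul_one]
    have h2 : (range p).filter (fun n => n < p - d) = range (p - d) := by
      ext n
      simp only [mem_filter, mem_range]
      omega
    rw [h2, card_range]
    omega
  · simp only [h, and_false, if_false, sum_const_zero]

theorem val_sub_nat (U j : ZMod p) {m : ℕ} (hm : m < p) :
    (U - (j + (m : ZMod p))).val =
      if m ≤ (U - j).val then (U - j).val - m else (U - j).val + p - m := by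
  have hd : (U - j).val < p := ZMod.val_lt _
  set d := (U - j).val with hdd
  have e : U - (j + (m : ZMod p)) = ((if m ≤ d then d - m else d + p - m : ℕ) : ZMod p) := by
    have h1 : U - j = (d : ZMod p) := by rw [hdd, ZMod.natCast_zmod_val]
    split_ifs with h
    · rw [Nat.cast_sub h, ← h1]; ring
    · rw [Nat.cast_sub (by omega), Nat.cast_add, ZMod.natCast_self, ← h1]; ring
  rw [e, ZMod.val_natCast_of_lt]
  split_ifs <;> omega

/-- the two corners of one side of one cluster, numbers only -/
theorem phi_id {p q b : ℕ} (hb : b < p) {d o u0 : ℕ} (hd : d < p)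
    (hu : u0 < q) (ho : o < p * q) {o' d3 : ℕ}
    (ho' : o' = if b * q ≤ o then o - b * q else o + p * q - b * q)
    (h3 : d3 = if b ≤ d then d - b else d + p - b) :
    (if o < q * d + u0 then ((p : ℤ) - d) else 0) - (if o' < q * d3 + u0 then ((p : ℤ) - d3) else 0)
      = - (b : ℤ) * (if o < q * d + u0 then 1 else 0) +
        (if o < b * q then ((p : ℤ) * (if o < q * d + u0 then 1 else 0) - d + b) else 0) -
        ((b - d : ℕ) : ℤ) := by
  obtain ⟨Dq, hDq⟩ : ∃ Dq, Dq = q * d := ⟨_, rfl⟩
  obtain ⟨Bq, hBq⟩ : ∃ Bq, Bq = b * q := ⟨_, rfl⟩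
  obtain ⟨Pq, hPq⟩ : ∃ Pq, Pq = p * q := ⟨_, rfl⟩
  have f1 : Dq + q ≤ Pq := by
    rw [hDq, hPq]
    have : q * (d + 1) ≤ q * p := Nat.mul_le_mul_left _ hd
    linarith [Nat.mul_comm p q]
  have f2 : Bq + q ≤ Pq := by
    rw [hBq, hPq]
    have : (b + 1) * q ≤ p * q := Nat.mul_le_mul_right _ hb
    linarith
  have fb : (b ≤ d → Bq ≤ Dq) ∧ (d < b → Dq + q ≤ Bq) := by
    constructor
    · intro h
      rw [hBq, hDq, Nat.mul_comm b q]
      exact Nat.mul_le_mul_left _ h
    · intro h
      rw [hBq, hDq, Nat.mul_comm b q]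
      have : q * (d + 1) ≤ q * b := Nat.mul_le_mul_left _ h
      linarith
  have e3 : q * d3 = if b ≤ d then Dq - Bq else Dq + Pq - Bq := by
    rw [h3]
    split_ifs with h
    · rw [Nat.mul_sub, hDq, hBq, Nat.mul_comm b q]
    · rw [Nat.mul_sub, Nat.mul_add, hDq, hBq, hPq, Nat.mul_comm b q, Nat.mul_comm p q]
  rw [e3]
  rw [← hBq, ← hPq] at ho'
  rw [← hPq] at ho
  rw [← hBq, ← hDq]
  clear hBq hPq hDq e3
  by_cases c1 : o < Bq
  · rw [if_neg (by omega)] at ho'
    by_cases c3 : b ≤ d
    · simp only [c3, c1, if_true] at h3 ⊢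
      split_ifs <;> omega
    · simp only [c3, c1, if_true, if_false] at h3 ⊢
      split_ifs <;> omega
  · rw [if_pos (by omega)] at ho'
    by_cases c3 : b ≤ d
    · simp only [c3, c1, if_true, if_false] at h3 ⊢
      split_ifs <;> omega
    · simp only [c3, c1, if_false] at h3 ⊢
      split_ifs <;> omega

/-- the window of the ordinates, numbers only -/
theorem sw_id {p q a : ℕ} (ha : a < p) {d o u0 : ℕ} (hd : d < p)
    (hu : u0 < q) (ho : o < p * q) {d2 σ : ℕ}
    (h2 : d2 = if a ≤ d then d - a else d + p - a)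
    (hσ : σ = if o < q * d + u0 then q * d + u0 - o - 1 else q * d + u0 + p * q - o - 1) :
    (if o < q * d + u0 then (1 : ℤ) else 0) - (if o < q * d2 + u0 then 1 else 0)
      = (if σ < a * q then 1 else 0) - (if d < a then 1 else 0) := by
  obtain ⟨Dq, hDq⟩ : ∃ Dq, Dq = q * d := ⟨_, rfl⟩
  obtain ⟨Aq, hAq⟩ : ∃ Aq, Aq = a * q := ⟨_, rfl⟩
  obtain ⟨Pq, hPq⟩ : ∃ Pq, Pq = p * q := ⟨_, rfl⟩
  have f1 : Dq + q ≤ Pq := by
    rw [hDq, hPq]
    have : q * (d + 1) ≤ q * p := Nat.mul_le_mul_left _ hd
    linarith [Nat.mul_comm p q]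
  have f2 : Aq + q ≤ Pq := by
    rw [hAq, hPq]
    have : (a + 1) * q ≤ p * q := Nat.mul_le_mul_right _ ha
    linarith
  have fa : (a ≤ d → Aq ≤ Dq) ∧ (d < a → Dq + q ≤ Aq) := by
    constructor
    · intro h
      rw [hAq, hDq, Nat.mul_comm a q]
      exact Nat.mul_le_mul_left _ h
    · intro h
      rw [hAq, hDq, Nat.mul_comm a q]
      have : q * (d + 1) ≤ q * a := Nat.mul_le_mul_left _ h
      linarith
  have e2 : q * d2 = if a ≤ d then Dq - Aq else Dq + Pq - Aq := by
    rw [h2]
    split_ifs with h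
    · rw [Nat.mul_sub, hDq, hAq, Nat.mul_comm a q]
    · rw [Nat.mul_sub, Nat.mul_add, hDq, hAq, hPq, Nat.mul_comm a q, Nat.mul_comm p q]
  rw [e2]
  rw [← hDq, ← hPq] at hσ
  rw [← hPq] at ho
  rw [← hAq, ← hDq]
  clear hAq hPq hDq e2
  by_cases c1 : a ≤ d
  · have c2 : ¬ d < a := by omega
    simp only [c1, c2, if_true, if_false]
    by_cases c3 : o < Dq + u0
    · rw [if_pos c3] at hσ
      simp only [c3, if_true]
      split_ifs <;> omega
    · rw [if_neg c3] at hσ
      simp only [c3, if_false]
      split_ifs <;> omega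
  · have c2 : d < a := by omega
    simp only [c1, c2, if_true, if_false]
    by_cases c3 : o < Dq + u0
    · rw [if_pos c3] at hσ
      simp only [c3, if_true]
      split_ifs <;> omega
    · rw [if_neg c3] at hσ
      simp only [c3, if_false]
      split_ifs <;> omega

/-- one cluster, numbers only -/
theorem local_id {p q a b : ℕ} (hab : a + b < p) {d o u0 : ℕ} (hd : d < p)
    (hu : u0 < q) (ho : o < p * q) {o' d2 d3 d4 σ : ℕ}
    (ho' : o' = if b * q ≤ o then o - b * q else o + p * q - b * q)
    (h2 : d2 = if a ≤ d then d - a else d + p - a)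
    (h3 : d3 = if b ≤ d then d - b else d + p - b)
    (h4 : d4 = if b ≤ d2 then d2 - b else d2 + p - b)
    (hσ : σ = if o < q * d + u0 then q * d + u0 - o - 1 else q * d + u0 + p * q - o - 1) :
    (if o < q * d + u0 then ((p : ℤ) - d) else 0) - (if o < q * d2 + u0 then ((p : ℤ) - d2) else 0)
      - (if o' < q * d3 + u0 then ((p : ℤ) - d3) else 0)
      + (if o' < q * d4 + u0 then ((p : ℤ) - d4) else 0) =
    (p : ℤ) * (if o < b * q ∧ σ < a * q then 1 else 0) - a * (if o < b * q then 1 else 0)
      - b * (if σ < a * q then 1 else 0) + ((b : ℤ) * (if d < a then 1 else 0) -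
        ((b - d : ℕ) : ℤ) + ((b - d2 : ℕ) : ℤ)) := by
  have hd2 : d2 < p := by
    rw [h2]
    split_ifs <;> omega
  have g1 := phi_id (b := b) (by omega) hd hu ho ho' h3
  have g2 := phi_id (b := b) (by omega) hd2 hu ho ho' h4
  have g3 := sw_id (a := a) (by omega) hd hu ho h2 hσ
  have g4 : (d : ℤ) - d2 = a - p * (if d < a then 1 else 0) := by
    rw [h2]
    by_cases c : a ≤ d
    · rw [if_pos c, if_neg (by omega)]
      omega
    · rw [if_neg c, if_pos (by omega)]
      omega
  set T1 : ℤ := if o < q * d + u0 then (1 : ℤ) else 0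
  set T2 : ℤ := if o < q * d2 + u0 then (1 : ℤ) else 0
  set Sw : ℤ := if σ < a * q then (1 : ℤ) else 0 with hSw
  set I : ℤ := if d < a then (1 : ℤ) else 0
  by_cases c1 : o < b * q
  · have e1 : (if o < b * q ∧ σ < a * q then (1 : ℤ) else 0) = Sw := by
      simp only [c1, true_and, hSw]
    rw [e1]
    simp only [c1, if_true] at g1 g2 ⊢
    linear_combination g1 - g2 + ((p : ℤ) - b) * g3 - g4
  · have e1 : (if o < b * q ∧ σ < a * q then (1 : ℤ) else 0) = 0 := by
      simp only [c1, false_and, if_false]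
    rw [e1]
    simp only [c1, if_false] at g1 g2 ⊢
    linear_combination g1 - g2 - (b : ℤ) * g3

theorem tri_sum (hq : 0 < q) (X S : ZMod (p * q)) (x : ZMod (p * q)) (j : ZMod p) :
    (open Classical in ∑ W : ZMod p, if tri q X W S x j then (1 : ℤ) else 0) =
      if off X x < q * ((((off X S / q : ℕ)) : ZMod p) - j).val + off X S % q then
        ((p : ℤ) - ((((off X S / q : ℕ)) : ZMod p) - j).val) else 0 := by
  classical
  rw [← sum_tri _ _ (Nat.mod_lt _ hq)]
  apply Finset.sum_congr rfl
  intro W _
  have h1 : off (X + e p q W) S = q * ((((off X S / q : ℕ)) : ZMod p) - W).val + off X S % q := by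
    have hlt : q * ((((off X S / q : ℕ)) : ZMod p) - W).val + off X S % q < p * q := by
      have g1 := ZMod.val_lt ((((off X S / q : ℕ)) : ZMod p) - W)
      have g2 := Nat.mod_lt (off X S) hq
      have g3 : q * ((((off X S / q : ℕ)) : ZMod p) - W).val + q ≤ q * p := by
        have : q * (((((off X S / q : ℕ)) : ZMod p) - W).val + 1) ≤ q * p :=
          Nat.mul_le_mul_left _ g1
        linarith
      have g4 := Nat.mul_comm p q
      omega
    have h2 : S = (X + e p q W) +
        ((q * ((((off X S / q : ℕ)) : ZMod p) - W).val + off X S % q : ℕ) : ZMod (p * q)) := by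
      have g1 : e p q ((((off X S / q : ℕ)) : ZMod p) - W) =
          ((q * ((((off X S / q : ℕ)) : ZMod p) - W).val : ℕ) : ZMod (p * q)) := rfl
      rw [Nat.cast_add, ← g1, e_sub, e_natCast]
      have g2 := off_spec X S
      have g3 : (off X S : ZMod (p * q)) =
          ((off X S / q * q : ℕ) : ZMod (p * q)) + ((off X S % q : ℕ) : ZMod (p * q)) := by
        rw [← Nat.cast_add, Nat.div_add_mod']
      rw [g3] at g2
      linear_combination -g2
    conv_lhs => rw [h2]
    rw [off_nat _ hlt]
  have h2 : tri q X W S x j ↔ off X x + q * (j - W).val <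
      q * ((((off X S / q : ℕ)) : ZMod p) - W).val + off X S % q := by
    unfold tri
    rw [h1]
  by_cases h3 : tri q X W S x j
  · rw [if_pos h3, if_pos (h2.1 h3)]
  · rw [if_neg h3, if_neg (fun h4 => h3 (h2.2 h4))]

theorem hAV : StAV := by
  intro p q a b _ _ hab ha hb z X S
  classical
  have hq : 0 < q := Nat.pos_of_ne_zero (NeZero.ne q)
  have hM : 0 < p * q := Nat.mul_pos (Nat.pos_of_ne_zero (NeZero.ne p)) hq
  set U : ZMod p := ((off X S / q : ℕ) : ZMod p) with hU
  set u0 := off X S % q with hu0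
  have hu : u0 < q := Nat.mod_lt _ hq
  unfold FF
  rw [Finset.sum_comm]
  have key : ∀ j : ZMod p, (∑ W : ZMod p,
      ((if tri q X W S (z j) j then (1 : ℤ) else 0) -
      (if tri q X W S (z j) (j + a) then 1 else 0) -
      (if tri q X W S (z j - b * q) (j + b) then 1 else 0) +
      (if tri q X W S (z j - b * q) (j + a + b) then 1 else 0))) =
      (p : ℤ) * (if box q a b z j X S then 1 else 0) - a * (if off X (z j) < b * q then 1 else 0)
      - b * (if off (sc q z j + 1) S < a * q then 1 else 0) +
      ((fun d : ℕ => (b : ℤ) * (if d < a then 1 else 0) - ((b - d : ℕ) : ℤ)) (U - j).val +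
        (fun d : ℕ => ((b - d : ℕ) : ℤ)) (U - (a : ZMod p) - j).val) := by
    intro j
    rw [Finset.sum_add_distrib, Finset.sum_sub_distrib, Finset.sum_sub_distrib]
    rw [tri_sum hq, tri_sum hq, tri_sum hq, tri_sum hq, ← hU, ← hu0]
    have hd : (U - j).val < p := ZMod.val_lt _
    have h2 := val_sub_nat U j (m := a) (by omega)
    have h3 := val_sub_nat U j (m := b) (by omega)
    have h4 := val_sub_nat U (j + (a : ZMod p)) (m := b) (by omega)
    have e5 : U - (a : ZMod p) - j = U - (j + (a : ZMod p)) := by ring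
    have ho' : off X (z j - (b : ZMod (p * q)) * (q : ZMod (p * q))) =
        if b * q ≤ off X (z j) then off X (z j) - b * q else off X (z j) + p * q - b * q := by
      have ho := off_lt X (z j)
      have hbq : b * q ≤ p * q := Nat.mul_le_mul_right _ (by omega)
      have e0 := off_spec X (z j)
      have e1 : z j - (b : ZMod (p * q)) * (q : ZMod (p * q)) = X +
          ((if b * q ≤ off X (z j) then off X (z j) - b * q else off X (z j) + p * q - b * q : ℕ) :
            ZMod (p * q)) := by
        split_ifs with h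
        · rw [Nat.cast_sub h]
          push_cast
          linear_combination -e0
        · rw [Nat.cast_sub (by omega), Nat.cast_add, ZMod.natCast_self]
          push_cast
          linear_combination -e0
      rw [e1, off_nat]
      have : 0 < b * q := Nat.mul_pos hb hq
      split_ifs <;> omega
    have hσ : off (sc q z j + 1) S = if off X (z j) < q * (U - j).val + u0 then
        q * (U - j).val + u0 - off X (z j) - 1 else
        q * (U - j).val + u0 + p * q - off X (z j) - 1 := by
      have ho := off_lt X (z j)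
      have hlt : q * (U - j).val + q ≤ p * q := by
        have : q * ((U - j).val + 1) ≤ q * p := Nat.mul_le_mul_left _ hd
        linarith [Nat.mul_comm p q]
      have e0 := off_spec X (z j)
      have e2 : S = X + e p q j + ((q * (U - j).val + u0 : ℕ) : ZMod (p * q)) := by
        have g1 : e p q (U - j) = ((q * (U - j).val : ℕ) : ZMod (p * q)) := rfl
        rw [Nat.cast_add, ← g1, e_sub, hU, e_natCast]
        have g2 := off_spec X S
        have g3 : (off X S : ZMod (p * q)) =
            ((off X S / q * q : ℕ) : ZMod (p * q)) + ((off X S % q : ℕ) : ZMod (p * q)) := by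
          rw [← Nat.cast_add, Nat.div_add_mod']
        rw [g3] at g2
        rw [hu0]
        linear_combination -g2
      have e3 : S = (sc q z j + 1) + ((if off X (z j) < q * (U - j).val + u0 then
          q * (U - j).val + u0 - off X (z j) - 1 else
          q * (U - j).val + u0 + p * q - off X (z j) - 1 : ℕ) : ZMod (p * q)) := by
        unfold sc
        split_ifs with h
        · rw [Nat.cast_sub (by omega), Nat.cast_sub (by omega)]
          push_cast at e2 ⊢
          linear_combination e2 + e0
        · rw [Nat.cast_sub (by omega), Nat.cast_sub (by omega), Nat.cast_add _ (p * q),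
            ZMod.natCast_self]
          push_cast at e2 ⊢
          linear_combination e2 + e0
      conv_lhs => rw [e3]
      rw [off_nat]
      split_ifs <;> omega
    have key2 := local_id (a := a) (b := b) hab hd hu (off_lt X (z j)) ho' h2 h3 h4 hσ
    have e6 : U - (j + (a : ZMod p) + (b : ZMod p)) = U - (j + (a : ZMod p) + (b : ZMod p)) := rfl
    rw [e5]
    unfold Helper11.N1.box
    rw [key2]
    ring_nf
  rw [Finset.sum_congr rfl (fun j _ => key j)]
  rw [Finset.sum_add_distrib, Finset.sum_sub_distrib, Finset.sum_sub_distrib,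
    Finset.sum_add_distrib, ← Finset.mul_sum, ← Finset.mul_sum, ← Finset.mul_sum]
  have s1 := sum_zmod_sub U (fun d : ℕ => (b : ℤ) * (if d < a then 1 else 0) - ((b - d : ℕ) : ℤ))
  have s2 := sum_zmod_sub (U - (a : ZMod p)) (fun d : ℕ => ((b - d : ℕ) : ℤ))
  rw [s1, s2, Finset.sum_sub_distrib, ← Finset.mul_sum]
  have s3 : (∑ d ∈ range p, if d < a then (1 : ℤ) else 0) = a := by
    rw [← Finset.sum_filter, Finset.sum_const, nsmul_eq_mul, mul_one]
    have h2 : (range p).filter (fun n => n < a) = range a := by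
      ext n
      simp only [mem_filter, mem_range]
      omega
    rw [h2, card_range]
  rw [s3]
  unfold NN nz ns
  ring

theorem hCMP : StCMP := by
  intro p q a b _ _ hab ha hb z X₁ S₁ X₂ S₂ h1 h2 hN1 hN2
  have e1 := hAV p q a b hab ha hb z X₁ S₁
  have e2 := hAV p q a b hab ha hb z X₂ S₂
  have g1 : ∑ W : ZMod p, FF q a b z X₁ W S₁ ≤ p := by
    have : ∑ W : ZMod p, FF q a b z X₁ W S₁ ≤ ∑ W : ZMod p, (1 : ℤ) :=
      Finset.sum_le_sum (fun W _ => (abs_le.1 (h1 W)).2)
    simpa using this
  have g2 : -(p : ℤ) ≤ ∑ W : ZMod p, FF q a b z X₂ W S₂ := by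
    have : ∑ W : ZMod p, (-1 : ℤ) ≤ ∑ W : ZMod p, FF q a b z X₂ W S₂ :=
      Finset.sum_le_sum (fun W _ => (abs_le.1 (h2 W)).1)
    simpa using this
  rw [e1] at g1
  rw [e2] at g2
  have hp : (0 : ℤ) ≤ p := by positivity
  have k1 : (p : ℤ) * 2 ≤ p * NN q a b z X₁ S₁ := mul_le_mul_of_nonneg_left hN1 hp
  have k2 : (p : ℤ) * NN q a b z X₂ S₂ ≤ p * 0 := mul_le_mul_of_nonneg_left hN2 hp
  linarith

end

end Helper48.AV
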